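import Mathlib
import Pool.Agent.H964.QC.Stm

/-! # Project QC (helper964), S_IND: independence of layers (helper230) -/

set_option autoImplicit false

open MeasureTheory ProbabilityTheory Pool.Agent.H964.QC

namespace Pool.Agent.H230.QC

/-- Functions of disjoint families of independent variables are independent. -/
theorem indep_gen {Ω ι : Type} [mΩ : MeasurableSpace Ω] {P : Measure Ω} {f : ι → Ω → ℝ}
    (hf : ∀ i, Measurable (f i)) (h : iIndepFun f P) {S T : Set ι} (hST : Disjoint S T)
    {A B : Type} [MeasurableSpace A] [MeasurableSpace B] {X : Ω → A} {Y : Ω → B}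
    (hX : Measurable[⨆ i ∈ S, MeasurableSpace.comap (f i) inferInstance] X)
    (hY : Measurable[⨆ i ∈ T, MeasurableSpace.comap (f i) inferInstance] Y) :
    IndepFun X Y P := by
  have h1 := indep_iSup_of_disjoint (fun i => (hf i).comap_le) h.iIndep hST
  exact indep_of_indep_of_le h1 (measurable_iff_comap_le.1 hX) (measurable_iff_comap_le.1 hY)

theorem meas_one {Ω ι : Type} (f : ι → Ω → ℝ) (S : Set ι) (i : ι) (hi : i ∈ S) :
    Measurable[⨆ i ∈ S, MeasurableSpace.comap (f i) inferInstance] (f i) := by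
  rw [measurable_iff_comap_le]
  exact le_iSup₂_of_le i hi le_rfl

theorem pi1 {Ω V : Type} (m : MeasurableSpace Ω) (X : Ω → V → ℝ)
    (h : ∀ v, Measurable[m] (fun ω => X ω v)) : Measurable[m] X :=
  measurable_pi_iff.2 h

theorem pi2 {Ω V : Type} (m : MeasurableSpace Ω) (X : Ω → ℕ → V → ℝ)
    (h : ∀ n v, Measurable[m] (fun ω => X ω n v)) : Measurable[m] X :=
  measurable_pi_iff.2 fun n => measurable_pi_iff.2 fun v => h n v

theorem disj {V : Type} (j : ℕ) :
    Disjoint {i : ℕ × V | i.1 ≤ j} {i : ℕ × V | j < i.1} := by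
  rw [Set.disjoint_left]
  intro i h1 h2
  have h3 : i.1 ≤ j := h1
  have h4 : j < i.1 := h2
  omega

theorem t_IND : S_IND := by
  intro V _ _ Ω _ P _ s2 κ η hN j
  have hm : ∀ i : ℕ × V, Measurable (η i.1 i.2) := fun i => hN.meas i.1 i.2
  have hcut : Measurable[⨆ i ∈ {i : ℕ × V | i.1 ≤ j},
      MeasurableSpace.comap (η i.1 i.2) inferInstance] (fun ω => cut j (cfg η ω)) := by
    refine pi2 _ _ fun n v => ?_
    by_cases hn : n ≤ j
    · have he : (fun ω => cut j (cfg η ω) n v) = η n v := by
        funext ω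
        simp [cut, cfg, hn]
      rw [he]
      exact meas_one (fun i : ℕ × V => η i.1 i.2) {i : ℕ × V | i.1 ≤ j} (n, v) hn
    · have he : (fun ω => cut j (cfg η ω) n v) = fun _ => (0 : ℝ) := by
        funext ω
        simp [cut, hn]
      rw [he]
      exact measurable_const
  refine ⟨?_, ?_, ?_⟩
  · refine indep_gen hm hN.indep (S := {i : ℕ × V | i.1 ≤ j}) (T := {i : ℕ × V | j < i.1})
      (disj j) hcut ?_
    · refine pi2 _ _ fun n v => ?_
      have hmem : ((j + 1 + n, v) : ℕ × V) ∈ {i : ℕ × V | j < i.1} := by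
        show j < j + 1 + n
        omega
      exact meas_one (fun i : ℕ × V => η i.1 i.2) {i : ℕ × V | j < i.1} (j + 1 + n, v) hmem
  · refine indep_gen hm hN.indep (S := {i : ℕ × V | i.1 ≤ j}) (T := {i : ℕ × V | j < i.1})
      (disj j) hcut ?_
    · refine pi1 _ _ fun v => ?_
      have hmem : ((j + 1, v) : ℕ × V) ∈ {i : ℕ × V | j < i.1} := by
        show j < j + 1
        omega
      exact meas_one (fun i : ℕ × V => η i.1 i.2) {i : ℕ × V | j < i.1} (j + 1, v) hmem
  · have hinj : Function.Injective (fun i : ℕ × V => ((j + i.1, i.2) : ℕ × V)) := by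
      rintro ⟨a, u⟩ ⟨b, v⟩ hab
      simp only [Prod.mk.injEq, Nat.add_left_cancel_iff] at hab
      rw [hab.1, hab.2]
    exact
      { meas := fun n v => hN.meas (j + n) v
        indep := iIndepFun.precomp (f := fun i : ℕ × V => η i.1 i.2) hinj hN.indep
        gt := fun n v ω => hN.gt (j + n) v ω
        int4 := fun n v => hN.int4 (j + n) v
        m1 := fun n v => hN.m1 (j + n) v
        m2 := fun n v => hN.m2 (j + n) v
        m3 := fun n v => hN.m3 (j + n) v
        m4 := fun n v => hN.m4 (j + n) v }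

end Pool.Agent.H230.QC
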