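import Mathlib
import Pool.Agent.H964.QC.Stm

/-! # Project QC (helper964), S_RR: return probabilities of the planar walk (helper230) -/

set_option autoImplicit false

open Finset Pool.Agent.H964.QC

namespace Pool.Agent.H230.QC

theorem rr_zero : rr 0 = 1 := by simp [rr]

theorem rr_succ (n : ℕ) : rr (n + 1) = rr n * ((2 * (n : ℝ) + 1) / (2 * (n : ℝ) + 2)) ^ 2 := by
  have h := Nat.succ_mul_centralBinom_succ n
  have h' : ((n : ℝ) + 1) * (Nat.centralBinom (n + 1) : ℝ) =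
      2 * (2 * (n : ℝ) + 1) * (Nat.centralBinom n : ℝ) := by exact_mod_cast h
  have hn : (0 : ℝ) < (n : ℝ) + 1 := by positivity
  have h2 : (Nat.centralBinom (n + 1) : ℝ) =
      2 * (2 * (n : ℝ) + 1) * (Nat.centralBinom n : ℝ) / ((n : ℝ) + 1) := by
    rw [eq_div_iff hn.ne']
    linarith
  have h5 : (2 * (n : ℝ) + 2) ≠ 0 := by positivity
  have key : 2 * (2 * (n : ℝ) + 1) * (Nat.centralBinom n : ℝ) / ((n : ℝ) + 1) / 4 ^ (n + 1) =
      (Nat.centralBinom n : ℝ) / 4 ^ n * ((2 * (n : ℝ) + 1) / (2 * (n : ℝ) + 2)) := by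
    have h4 : (4 : ℝ) ^ n ≠ 0 := by positivity
    rw [pow_succ]
    field_simp
    ring
  unfold rr
  rw [h2, key, mul_pow]

theorem rr_pos (n : ℕ) : 0 < rr n := by
  have : (0 : ℝ) < Nat.centralBinom n := by exact_mod_cast Nat.centralBinom_pos n
  unfold rr
  positivity

theorem rr_le (n : ℕ) : rr n ≤ 1 / (2 * (n : ℝ) + 1) := by
  induction n with
  | zero => rw [rr_zero]; norm_num
  | succ n ih =>
    rw [rr_succ]
    have h1 : rr n * ((2 * (n : ℝ) + 1) / (2 * (n : ℝ) + 2)) ^ 2 ≤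
        1 / (2 * (n : ℝ) + 1) * ((2 * (n : ℝ) + 1) / (2 * (n : ℝ) + 2)) ^ 2 :=
      mul_le_mul_of_nonneg_right ih (by positivity)
    refine h1.trans ?_
    have h2 : 1 / (2 * (n : ℝ) + 1) * ((2 * (n : ℝ) + 1) / (2 * (n : ℝ) + 2)) ^ 2 =
        (2 * (n : ℝ) + 1) / (2 * (n : ℝ) + 2) ^ 2 := by
      have : (2 * (n : ℝ) + 1) ≠ 0 := by positivity
      have : (2 * (n : ℝ) + 2) ≠ 0 := by positivity
      field_simp
    rw [h2]
    push_cast
    rw [div_le_div_iff₀ (by positivity) (by positivity)]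
    nlinarith

theorem le_rr (n : ℕ) (hn : 1 ≤ n) : 1 / (4 * (n : ℝ)) ≤ rr n := by
  induction n, hn using Nat.le_induction with
  | base =>
    rw [show rr 1 = rr (0 + 1) from rfl, rr_succ, rr_zero]
    norm_num
  | succ n hn ih =>
    rw [rr_succ]
    have hn0 : (0 : ℝ) < n := by exact_mod_cast hn
    have h1 : 1 / (4 * (n : ℝ)) * ((2 * (n : ℝ) + 1) / (2 * (n : ℝ) + 2)) ^ 2 ≤
        rr n * ((2 * (n : ℝ) + 1) / (2 * (n : ℝ) + 2)) ^ 2 :=
      mul_le_mul_of_nonneg_right ih (by positivity)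
    refine le_trans ?_ h1
    have h2 : 1 / (4 * (n : ℝ)) * ((2 * (n : ℝ) + 1) / (2 * (n : ℝ) + 2)) ^ 2 =
        (2 * (n : ℝ) + 1) ^ 2 / (4 * (n : ℝ) * (2 * (n : ℝ) + 2) ^ 2) := by
      have : (2 * (n : ℝ) + 2) ≠ 0 := by positivity
      field_simp
    rw [h2]
    push_cast
    rw [div_le_div_iff₀ (by positivity) (by positivity)]
    nlinarith

theorem rr_anti : Antitone rr := by
  refine antitone_nat_of_succ_le fun n => ?_
  rw [rr_succ]
  have h0 := rr_pos n
  have h1 : ((2 * (n : ℝ) + 1) / (2 * (n : ℝ) + 2)) ^ 2 ≤ 1 := by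
    apply pow_le_one₀ (by positivity)
    rw [div_le_one (by positivity)]
    linarith
  nlinarith

theorem RR_succ (n : ℕ) : RR (n + 1) = RR n + rr (n + 1) := by
  unfold RR
  rw [Finset.sum_Icc_succ_top (by omega)]

theorem RR_upper (a b : ℕ) (ha : 1 ≤ a) (hab : a ≤ b) :
    RR b - RR a ≤ 1 / 2 * Real.log ((b : ℝ) / a) := by
  have ha0 : (0 : ℝ) < a := by exact_mod_cast ha
  induction b, hab using Nat.le_induction with
  | base => rw [div_self ha0.ne']; simp
  | succ b hab ih =>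
    have hb0 : (0 : ℝ) < b := by exact_mod_cast (by omega : 0 < b)
    have h1 : rr (b + 1) ≤ 1 / (2 * ((b + 1 : ℕ) : ℝ) + 1) := rr_le (b + 1)
    have h2 : 1 / (2 * ((b + 1 : ℕ) : ℝ) + 1) ≤ 1 / 2 * (1 / ((b : ℝ) + 1)) := by
      push_cast
      rw [show 1 / 2 * (1 / ((b : ℝ) + 1)) = 1 / (2 * ((b : ℝ) + 1)) by
        field_simp]
      apply one_div_le_one_div_of_le (by positivity)
      linarith
    have h3 : 1 / ((b : ℝ) + 1) ≤ Real.log (((b : ℝ) + 1) / b) := by
      have h4 := Real.one_sub_inv_le_log_of_pos (x := ((b : ℝ) + 1) / b) (by positivity)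
      have h5 : 1 - (((b : ℝ) + 1) / b)⁻¹ = 1 / ((b : ℝ) + 1) := by
        rw [inv_div]
        field_simp
        ring
      rwa [h5] at h4
    have h6 : Real.log (((b + 1 : ℕ) : ℝ) / a) =
        Real.log (((b : ℝ) + 1) / b) + Real.log ((b : ℝ) / a) := by
      rw [← Real.log_mul (by positivity) (by positivity)]
      congr 1
      push_cast
      field_simp
    rw [RR_succ, h6]
    linarith

theorem RR_lower (a b : ℕ) (hab : a ≤ b) :
    1 / 4 * Real.log (((b : ℝ) + 1) / ((a : ℝ) + 1)) ≤ RR b - RR a := by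
  have ha0 : (0 : ℝ) < (a : ℝ) + 1 := by positivity
  induction b, hab using Nat.le_induction with
  | base => rw [div_self ha0.ne']; simp
  | succ b hab ih =>
    have h1 := le_rr (b + 1) (by omega)
    have hb1 : (0 : ℝ) < (b : ℝ) + 1 := by positivity
    have h3 : Real.log (((b : ℝ) + 1 + 1) / ((b : ℝ) + 1)) ≤ 1 / ((b : ℝ) + 1) := by
      have h4 := Real.log_le_sub_one_of_pos (x := ((b : ℝ) + 1 + 1) / ((b : ℝ) + 1)) (by positivity)
      have h5 : ((b : ℝ) + 1 + 1) / ((b : ℝ) + 1) - 1 = 1 / ((b : ℝ) + 1) := by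
        field_simp
        ring
      rwa [h5] at h4
    have h6 : Real.log ((((b + 1 : ℕ) : ℝ) + 1) / ((a : ℝ) + 1)) =
        Real.log (((b : ℝ) + 1 + 1) / ((b : ℝ) + 1)) +
          Real.log (((b : ℝ) + 1) / ((a : ℝ) + 1)) := by
      rw [← Real.log_mul (by positivity) (by positivity)]
      congr 1
      push_cast
      field_simp
    have h7 : 1 / 4 * (1 / ((b : ℝ) + 1)) = 1 / (4 * ((b + 1 : ℕ) : ℝ)) := by
      push_cast
      field_simp
    rw [RR_succ, h6]
    linarith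

theorem t_RR : S_RR := by
  refine ⟨rr_pos, rr_le, le_rr, rr_anti, RR_upper, RR_lower, ?_⟩
  intro b hb
  have h1 := RR_upper 1 b le_rfl hb
  have h2 : RR 1 = 1 / 4 := by
    unfold RR
    rw [Finset.Icc_self, Finset.sum_singleton, show rr 1 = rr (0 + 1) from rfl, rr_succ, rr_zero]
    norm_num
  rw [Nat.cast_one, div_one] at h1
  rw [h2] at h1
  linarith

end Pool.Agent.H230.QC
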